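import Pool.Agent.H14.AVS.S3

/-!
# AVS: module LUG (many pairs, over `F(t)`)
-/

set_option autoImplicit false

namespace Pool.AVS

open Polynomial Matrix Pool.AVR

namespace LUG

section local_lemmas

variable {L : Type} [Field L] {O : ValuationSubring L} {π : L}

/-- Integral vectors. -/
def VI (O : ValuationSubring L) (v : Fin 3 → L) : Prop := ∀ i, v i ∈ O

/-- Vectors divisible by `π`. -/
def VM (O : ValuationSubring L) (π : L) (v : Fin 3 → L) : Prop := ∀ i, v i / π ∈ O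

theorem m_add {x y : L} (hx : x / π ∈ O) (hy : y / π ∈ O) : (x + y) / π ∈ O := by
  rw [add_div]; exact O.add_mem _ _ hx hy

theorem m_sub {x y : L} (hx : x / π ∈ O) (hy : y / π ∈ O) : (x - y) / π ∈ O := by
  rw [sub_div]; exact O.sub_mem hx hy

theorem m_mul {x y : L} (hx : x ∈ O) (hy : y / π ∈ O) : (x * y) / π ∈ O := by
  rw [mul_div_assoc]; exact O.mul_mem _ _ hx hy

theorem m_mul' {x y : L} (hx : x / π ∈ O) (hy : y ∈ O) : (x * y) / π ∈ O := by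
  rw [mul_comm]; exact m_mul hy hx

theorem m_sum {v : Fin 3 → L} (h : ∀ i, v i / π ∈ O) : (∑ i, v i) / π ∈ O := by
  rw [Finset.sum_div]; exact sum_mem fun i _ => h i

theorem i_of_m (hπ0 : π ≠ 0) (hπ : π ∈ O) {x : L} (hx : x / π ∈ O) : x ∈ O := by
  have : x = x / π * π := by field_simp
  rw [this]; exact O.mul_mem _ _ hx hπ

theorem VI_mulVec {M : Matrix (Fin 3) (Fin 3) L} (hM : MI (O : Set L) M) {v : Fin 3 → L}
    (hv : VI O v) : VI O (M *ᵥ v) := by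
  intro i
  rw [mulVec, dotProduct]
  exact sum_mem fun j _ => O.mul_mem _ _ (hM i j) (hv j)

theorem VM_mulVec {M : Matrix (Fin 3) (Fin 3) L} (hM : MI (O : Set L) M) {v : Fin 3 → L}
    (hv : VM O π v) : VM O π (M *ᵥ v) := by
  intro i
  rw [mulVec, dotProduct]
  exact m_sum fun j => m_mul (hM i j) (hv j)

theorem VM_sub {u v : Fin 3 → L} (hu : VM O π u) (hv : VM O π v) : VM O π (u - v) :=
  fun i => m_sub (hu i) (hv i)

theorem VM_add {u v : Fin 3 → L} (hu : VM O π u) (hv : VM O π v) : VM O π (u + v) :=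
  fun i => m_add (hu i) (hv i)

theorem VI_of_VM (hπ0 : π ≠ 0) (hπ : π ∈ O) {u : Fin 3 → L} (hu : VM O π u) : VI O u :=
  fun i => i_of_m hπ0 hπ (hu i)

theorem VI_add {u v : Fin 3 → L} (hu : VI O u) (hv : VI O v) : VI O (u + v) :=
  fun i => O.add_mem _ _ (hu i) (hv i)

theorem VM_smul {r : L} (hr : r ∈ O) {u : Fin 3 → L} (hu : VM O π u) : VM O π (r • u) :=
  fun i => m_mul hr (hu i)

theorem dot_I {u v : Fin 3 → L} (hu : VI O u) (hv : VI O v) : u ⬝ᵥ v ∈ O :=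
  sum_mem fun i _ => O.mul_mem _ _ (hu i) (hv i)

theorem dot_M {u v : Fin 3 → L} (hu : VM O π u) (hv : VI O v) : (u ⬝ᵥ v) / π ∈ O :=
  m_sum fun i => m_mul' (hu i) (hv i)

theorem dot_M' {u v : Fin 3 → L} (hu : VI O u) (hv : VM O π v) : (u ⬝ᵥ v) / π ∈ O :=
  m_sum fun i => m_mul (hu i) (hv i)

theorem MI_mul {M N : Matrix (Fin 3) (Fin 3) L} (hM : MI (O : Set L) M)
    (hN : MI (O : Set L) N) : MI (O : Set L) (M * N) := by
  intro i j
  rw [Matrix.mul_apply]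
  change ∑ k, M i k * N k j ∈ O
  exact sum_mem fun k _ => O.mul_mem _ _ (hM i k) (hN k j)

theorem MI_transpose {M : Matrix (Fin 3) (Fin 3) L} (hM : MI (O : Set L) M) :
    MI (O : Set L) Mᵀ := fun i j => hM j i

theorem UI_mul {x y : L} (hx : UI (O : Set L) x) (hy : UI (O : Set L) y) :
    UI (O : Set L) (x * y) :=
  ⟨mul_ne_zero hx.1 hy.1, O.mul_mem _ _ hx.2.1 hy.2.1, by
    rw [mul_inv]; exact O.mul_mem _ _ hx.2.2 hy.2.2⟩

theorem UI_inv {x : L} (hx : UI (O : Set L) x) : UI (O : Set L) x⁻¹ :=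
  ⟨inv_ne_zero hx.1, hx.2.2, by rw [inv_inv]; exact hx.2.1⟩

theorem GI_inv {κ : Matrix (Fin 3) (Fin 3) L} (h : GI (O : Set L) κ) :
    ∃ κ', GI (O : Set L) κ' ∧ κ * κ' = 1 ∧ κ' * κ = 1 := by
  let K : Matrix (Fin 3) (Fin 3) O := Matrix.of fun i j => (⟨κ i j, h.1 i j⟩ : O)
  have hK : K.map O.subtype = κ := by ext i j; rfl
  have hdet : O.subtype K.det = κ.det := by rw [RingHom.map_det, RingHom.mapMatrix_apply, hK]
  have hu : IsUnit K.det := by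
    refine ⟨⟨K.det, ⟨κ.det⁻¹, h.2.2.2⟩, ?_, ?_⟩, rfl⟩
    · apply Subtype.ext
      change O.subtype K.det * κ.det⁻¹ = 1
      rw [hdet, mul_inv_cancel₀ h.2.1]
    · apply Subtype.ext
      change κ.det⁻¹ * O.subtype K.det = 1
      rw [hdet, inv_mul_cancel₀ h.2.1]
  have h1 : κ * (K⁻¹).map O.subtype = 1 := by
    rw [← hK, ← Matrix.map_mul, Matrix.mul_nonsing_inv _ hu]
    exact Matrix.map_one _ (map_zero _) (map_one _)
  have h2 : (K⁻¹).map O.subtype * κ = 1 := by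
    rw [← hK, ← Matrix.map_mul, Matrix.nonsing_inv_mul _ hu]
    exact Matrix.map_one _ (map_zero _) (map_one _)
  refine ⟨(K⁻¹).map O.subtype, ⟨fun i j => (K⁻¹ i j).2, ?_⟩, h1, h2⟩
  have h3 : ((K⁻¹).map O.subtype).det = κ.det⁻¹ := by
    have := congrArg Matrix.det h1
    rw [Matrix.det_mul, Matrix.det_one] at this
    exact eq_inv_of_mul_eq_one_right this
  rw [h3]
  exact UI_inv h.2

theorem GI_mul {κ κ' : Matrix (Fin 3) (Fin 3) L} (h : GI (O : Set L) κ)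
    (h' : GI (O : Set L) κ') : GI (O : Set L) (κ * κ') :=
  ⟨MI_mul h.1 h'.1, by rw [Matrix.det_mul]; exact UI_mul h.2 h'.2⟩

theorem Eqv_trans {g g' g'' : Matrix (Fin 3) (Fin 3) L} {z z' z'' : Fin 3 → L} {w w' w'' : L}
    (h : Eqv (O : Set L) π g z w g' z' w') (h' : Eqv (O : Set L) π g' z' w' g'' z'' w'') :
    Eqv (O : Set L) π g z w g'' z'' w'' := by
  obtain ⟨κ, hκ, hg, t, ht, hz, hw⟩ := h
  obtain ⟨κ', hκ', hg', t', ht', hz', hw'⟩ := h'
  refine ⟨κ * κ', GI_mul hκ hκ', by rw [hg', hg, Matrix.mul_assoc], t' * t, UI_mul ht' ht, ?_, ?_⟩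
  · have h1 : VM O π (κ *ᵥ (κ' *ᵥ z'' - t' • z')) := VM_mulVec hκ.1 hz'
    have h2 : VM O π (t' • (κ *ᵥ z' - t • z)) := VM_smul ht'.2.1 hz
    intro i
    have h3 := (VM_add h1 h2) i
    have h4 : (κ *ᵥ (κ' *ᵥ z'' - t' • z') + t' • (κ *ᵥ z' - t • z)) i =
        ((κ * κ') *ᵥ z'') i - t' * t * z i := by
      rw [← Matrix.mulVec_mulVec, Matrix.mulVec_sub, Matrix.mulVec_smul]
      simp only [Pi.add_apply, Pi.sub_apply, Pi.smul_apply, smul_eq_mul]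
      ring
    rw [h4] at h3
    exact h3
  · have h4 : w'' - t' * t * w = (w'' - t' * w') + t' * (w' - t * w) := by ring
    rw [h4]
    exact m_add hw' (m_mul ht'.2.1 hw)

theorem Eqv_symm {g g' : Matrix (Fin 3) (Fin 3) L} {z z' : Fin 3 → L} {w w' : L}
    (h : Eqv (O : Set L) π g z w g' z' w') : Eqv (O : Set L) π g' z' w' g z w := by
  obtain ⟨κ, hκ, hg, t, ht, hz, hw⟩ := h
  obtain ⟨κ', hκ', h1, h2⟩ := GI_inv hκ
  refine ⟨κ', hκ', by rw [hg, Matrix.mul_assoc, h1, Matrix.mul_one], t⁻¹, UI_inv ht, ?_, ?_⟩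
  · have h3 : VM O π (κ' *ᵥ (κ *ᵥ z' - t • z)) := VM_mulVec hκ'.1 hz
    have h4 : VM O π ((-t⁻¹) • (κ' *ᵥ (κ *ᵥ z' - t • z))) :=
      VM_smul (O.neg_mem _ ht.2.2) h3
    intro i
    have h5 := h4 i
    have h6 : ((-t⁻¹) • (κ' *ᵥ (κ *ᵥ z' - t • z))) i = (κ' *ᵥ z) i - t⁻¹ * z' i := by
      rw [Matrix.mulVec_sub, Matrix.mulVec_mulVec, h2, Matrix.one_mulVec, Matrix.mulVec_smul]
      simp only [Pi.sub_apply, Pi.smul_apply, smul_eq_mul]
      have := ht.1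
      field_simp
      ring
    rw [h6] at h5
    exact h5
  · have h7 : w - t⁻¹ * w' = (-t⁻¹) * (w' - t * w) := by
      have := ht.1
      field_simp
      ring
    rw [h7]
    exact m_mul (O.neg_mem _ ht.2.2) hw

theorem bil_conj (G κ : Matrix (Fin 3) (Fin 3) L) (u v : Fin 3 → L) :
    bil (κᵀ * G * κ) u v = bil G (κ *ᵥ u) (κ *ᵥ v) := by
  unfold bil
  rw [← Matrix.mulVec_mulVec, ← Matrix.mulVec_mulVec, Matrix.mulVec_transpose,
    dotProduct_comm, ← Matrix.dotProduct_mulVec, dotProduct_comm]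

theorem bil_add_left (G : Matrix (Fin 3) (Fin 3) L) (u u' v : Fin 3 → L) :
    bil G (u + u') v = bil G u v + bil G u' v := by
  unfold bil; rw [add_dotProduct]

theorem bil_add_right (G : Matrix (Fin 3) (Fin 3) L) (u v v' : Fin 3 → L) :
    bil G u (v + v') = bil G u v + bil G u v' := by
  unfold bil; rw [Matrix.mulVec_add, dotProduct_add]

theorem bil_close {G : Matrix (Fin 3) (Fin 3) L} (hG : MI (O : Set L) G) {z d : Fin 3 → L}
    (hπ0 : π ≠ 0) (hπ : π ∈ O) (hz : VI O z) (hd : VM O π d) :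
    (bil G (z + d) (z + d) - bil G z z) / π ∈ O := by
  have h1 : bil G (z + d) (z + d) - bil G z z = bil G z d + bil G d (z + d) := by
    rw [bil_add_left, bil_add_right]; ring
  rw [h1]
  refine m_add ?_ ?_
  · exact dot_M' hz (VM_mulVec hG hd)
  · exact dot_M hd (VI_mulVec hG (VI_add hz (VI_of_VM hπ0 hπ hd)))

/-- Changing the basis of the lattice and the point within its class modulo `π`. -/
theorem KP_transfer (hπ0 : π ≠ 0) (hπ : π ∈ O) {B g g' κ : Matrix (Fin 3) (Fin 3) L}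
    {z z' : Fin 3 → L} {w w' : L} (hg : g = g' * κ) (hκ : GI (O : Set L) κ)
    (hz : VM O π (z' - κ *ᵥ z)) (hw : (w' - w) / π ∈ O)
    (h : KP (O : Set L) π B g z w) :
    KP (O : Set L) π B g' z' w' ∧ Eqv (O : Set L) π g' z' w' g z w := by
  obtain ⟨hdet, hG, hH, hzI, hwI, hzM, hGz, hHz, hsm⟩ := h
  obtain ⟨κ', hκ', h1, h2⟩ := GI_inv hκ
  have hg' : g' = g * κ' := by rw [hg, Matrix.mul_assoc, h1, Matrix.mul_one]
  have hGG : ∀ C : Matrix (Fin 3) (Fin 3) L, g'ᵀ * C * g' = κ'ᵀ * (gᵀ * C * g) * κ' := by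
    intro C
    rw [hg', Matrix.transpose_mul]
    simp only [Matrix.mul_assoc]
  have hzI' : VI O z := hzI
  -- the vector `y = κ' z'` is close to `z`
  have hd : VM O π (κ' *ᵥ (z' - κ *ᵥ z)) := VM_mulVec hκ'.1 hz
  have hy : κ' *ᵥ z' = z + κ' *ᵥ (z' - κ *ᵥ z) := by
    rw [Matrix.mulVec_sub, Matrix.mulVec_mulVec, h2, Matrix.one_mulVec]; abel
  have hz'I : VI O z' := by
    have : z' = κ *ᵥ z + (z' - κ *ᵥ z) := by abel
    rw [this]
    exact VI_add (VI_mulVec hκ.1 hzI') (VI_of_VM hπ0 hπ hz)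
  have hw'I : w' ∈ O := by
    have : w' = w + (w' - w) := by ring
    rw [this]; exact O.add_mem _ _ hwI (i_of_m hπ0 hπ hw)
  have hbil : ∀ C : Matrix (Fin 3) (Fin 3) L, MI (O : Set L) (gᵀ * C * g) →
      (bil (g'ᵀ * C * g') z' z' - bil (gᵀ * C * g) z z) / π ∈ O := by
    intro C hC
    rw [hGG, bil_conj, hy]
    exact bil_close hC hπ0 hπ hzI' hd
  refine ⟨⟨?_, ⟨?_, ?_⟩, ?_, hz'I, hw'I, ?_, ?_, ?_, ?_⟩, κ, hκ, hg, 1, ?_, ?_, ?_⟩
  · rw [hg', Matrix.det_mul]; exact mul_ne_zero hdet hκ'.2.1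
  · rw [hGG]; exact MI_mul (MI_mul (MI_transpose hκ'.1) hG.1) hκ'.1
  · rw [hGG, Matrix.det_mul, Matrix.det_mul, Matrix.det_transpose]
    exact UI_mul (UI_mul hκ'.2 hG.2) hκ'.2
  · rw [hGG]; exact MI_mul (MI_mul (MI_transpose hκ'.1) hH) hκ'.1
  · by_contra hcon
    push_neg at hcon
    obtain ⟨i, hi⟩ := hzM
    apply hi
    have h3 : VM O π z' := hcon
    have h4 : z = κ' *ᵥ z' - κ' *ᵥ (z' - κ *ᵥ z) := by rw [hy]; abel
    have h5 := VM_sub (VM_mulVec hκ'.1 h3) hd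
    rw [← h4] at h5
    exact h5 i
  · have h3 := m_add (hbil _ hG.1) hGz
    rwa [sub_add_cancel] at h3
  · have h3 : w' ^ 2 + bil (g'ᵀ * B * g') z' z' =
        (w' - w) * (w' + w) + (bil (g'ᵀ * B * g') z' z' - bil (gᵀ * B * g) z z) +
        (w ^ 2 + bil (gᵀ * B * g) z z) := by ring
    rw [h3]
    exact m_add (m_add (m_mul' hw (O.add_mem _ _ hw'I hwI)) (hbil _ hH)) hHz
  · rintro ⟨h3, μ, hμ, h4⟩
    apply hsm
    refine ⟨?_, μ, hμ, ?_⟩
    · have h5 : w = w' - (w' - w) := by ring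
      rw [h5]; exact m_sub h3 hw
    · have h5 : VM O π ((g'ᵀ * B * g') *ᵥ z' - μ • ((g'ᵀ * AA L * g') *ᵥ z')) := h4
      have h6 : VM O π (κᵀ *ᵥ ((g'ᵀ * B * g') *ᵥ z' - μ • ((g'ᵀ * AA L * g') *ᵥ z'))) :=
        VM_mulVec (MI_transpose hκ.1) h5
      have h7 : ∀ C : Matrix (Fin 3) (Fin 3) L, κᵀ *ᵥ ((g'ᵀ * C * g') *ᵥ z') =
          (gᵀ * C * g) *ᵥ (κ' *ᵥ z') := by
        intro C
        rw [hGG, Matrix.mulVec_mulVec, Matrix.mulVec_mulVec]
        congr 1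
        have h8 : κᵀ * κ'ᵀ = 1 := by rw [← Matrix.transpose_mul, h2, Matrix.transpose_one]
        rw [← Matrix.mul_assoc, ← Matrix.mul_assoc, h8, Matrix.one_mul]
      rw [Matrix.mulVec_sub, Matrix.mulVec_smul, h7, h7, hy] at h6
      have h9 : (gᵀ * B * g) *ᵥ z - μ • ((gᵀ * AA L * g) *ᵥ z) =
          ((gᵀ * B * g) *ᵥ (z + κ' *ᵥ (z' - κ *ᵥ z)) -
            μ • ((gᵀ * AA L * g) *ᵥ (z + κ' *ᵥ (z' - κ *ᵥ z)))) -
          ((gᵀ * B * g) *ᵥ (κ' *ᵥ (z' - κ *ᵥ z)) -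
            μ • ((gᵀ * AA L * g) *ᵥ (κ' *ᵥ (z' - κ *ᵥ z)))) := by
        rw [Matrix.mulVec_add, Matrix.mulVec_add, smul_add]; abel
      have h10 : VM O π ((gᵀ * B * g) *ᵥ z - μ • ((gᵀ * AA L * g) *ᵥ z)) := by
        rw [h9]
        exact VM_sub h6 (VM_sub (VM_mulVec hH hd) (VM_smul hμ (VM_mulVec hG.1 hd)))
      exact h10
  · exact ⟨one_ne_zero, O.one_mem, by rw [inv_one]; exact O.one_mem⟩
  · intro i
    have h3 := hz i
    have h4 : (κ *ᵥ z) i - 1 * z' i = -((z' - κ *ᵥ z) i) := by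
      rw [Pi.sub_apply]; ring
    rw [h4, neg_div]
    exact O.neg_mem _ h3
  · have h4 : w - 1 * w' = -(w' - w) := by ring
    rw [h4, neg_div]
    exact O.neg_mem _ hw

end local_lemmas

end LUG

open LUG

theorem lug_thm (hLCU : LCUStmt) (hAPX : APXStmt) (hTRA : TRAStmt) : LUGStmt := by
  intro F _ I ϖ L _ O ι hι N a b c hdisc B z₀ w₀ hB ha hb hc hcov hw₀
  have hπ0 : ι ϖ ≠ 0 := hι.loc.pi_ne
  have hπ : ι ϖ ∈ O := hι.loc.pi_mem
  have hBt : (B.map ι)ᵀ = B.map ι := by rw [← Matrix.transpose_map, hB]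
  have hia : ia (B.map ι) = a := by
    rw [← ha]; unfold ia; simp only [Matrix.map_apply, map_neg, map_add, map_mul, map_ofNat]
  have hib : ib (B.map ι) = b := by
    rw [← hb]; unfold ib
    simp only [Matrix.map_apply, map_sub, map_add, map_mul, map_ofNat, map_pow]
  have hic : ic (B.map ι) = c := by
    rw [← hc]; unfold ic; rw [RingHom.map_det]; rfl
  obtain ⟨M, g, z, w, hKP, hne, hcard⟩ := hLCU L O (ι ϖ) hι.loc N a b c hdisc (B.map ι) z₀ w₀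
    hBt hia hib hic hcov hw₀
  obtain ⟨hTRA1, hTRA2⟩ := hTRA F I ϖ L O ι hι
  have hstep : ∀ i : Fin M, ∃ (g' : Matrix (Fin 3) (Fin 3) (RatFunc F))
      (z' : Fin 3 → RatFunc F) (w' : RatFunc F), KP I ϖ B g' z' w' ∧ g'.det ≠ 0 ∧
      Eqv (O : Set L) (ι ϖ) (g'.map ι) (fun j => ι (z' j)) (ι w') (g i) (z i) (w i) := by
    intro i
    obtain ⟨g', κ, hg', hκ, hgg⟩ := hAPX F I ϖ L O ι hι (g i) (hKP i).1
    have hden : ∀ x : L, ∃ y : RatFunc F, (ι y - x) / ι ϖ ∈ O := by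
      intro x
      obtain ⟨y, hy⟩ := hι.dense x 1
      refine ⟨y, ?_⟩
      have h3 : (ι y - x) / ι ϖ = -((x - ι y) / ι ϖ ^ 1) := by rw [pow_one]; ring
      rw [h3]; exact O.neg_mem _ hy
    choose ap hap using hden
    have hz : VM O (ι ϖ) ((fun j => ι (ap ((κ *ᵥ z i) j))) - κ *ᵥ z i) := by
      intro j
      rw [Pi.sub_apply]
      exact hap _
    obtain ⟨h1, h2⟩ := KP_transfer (g := g i) (g' := g'.map ι) (κ := κ) (z := z i)
      (z' := fun j => ι (ap ((κ *ᵥ z i) j))) (w := w i) (w' := ι (ap (w i))) hπ0 hπ hgg hκ hz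
      (hap _) (hKP i)
    exact ⟨g', fun j => ap ((κ *ᵥ z i) j), ap (w i), (hTRA1 _ _ _ _).mpr h1, hg', h2⟩
  choose g' z' w' hKP' hdet' hEq using hstep
  refine ⟨M, g', z', w', hKP', ?_, hcard⟩
  intro i j hij hcon
  apply hne i j hij
  have h1 := (hTRA2 (g' i) (g' j) (z' i) (z' j) (w' i) (w' j) (hdet' i)).mp hcon
  exact Eqv_trans (Eqv_symm (hEq i)) (Eqv_trans h1 (hEq j))

end Pool.AVS
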