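import Pool.Agent.H14.AVS.S5

/-!
# AVS: module TB5 (double or triple root modulo a prime)
-/

set_option autoImplicit false

namespace Pool.AVS

open Polynomial Matrix Pool.AVR

namespace TB5

variable {F : Type} [Field F]

theorem unit_two (h2 : (2 : F) ≠ 0) : IsUnit (2 : F[X]) := by
  have : (2 : F[X]) = C (2 : F) := (map_ofNat C 2).symm
  rw [this]
  exact Polynomial.isUnit_C.mpr (isUnit_iff_ne_zero.mpr h2)

end TB5

open TB5

theorem tb5_thm : TB5Stmt := by
  intro F _ _ h2 P a b c hP hD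
  have hPr : Prime P := hP.prime
  have hu2 : IsUnit (2 : F[X]) := unit_two h2
  have hn2 : ¬ P ∣ (2 : F[X]) := fun h => hP.not_isUnit (isUnit_of_dvd_unit h hu2)
  have hD1 : P ∣ disc a b c := (dvd_pow_self P two_ne_zero).trans hD
  by_cases h1 : P ∣ a ^ 2 - 3 * b
  · left
    refine ⟨h1, ?_, ?_⟩
    · have h3 : P ∣ (a * b - 9 * c) ^ 2 := by
        have h4 : (a * b - 9 * c) ^ 2 = (a ^ 2 - 3 * b) * (4 * (b ^ 2 - 3 * a * c)) -
            disc a b c * 3 := by unfold disc; ring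
        rw [h4]
        exact dvd_sub (h1.mul_right _) (hD1.mul_right _)
      exact hPr.dvd_of_dvd_pow h3
    · intro h3
      have h3' : (3 : F[X]) = 0 := by
        have : (3 : F[X]) = C (3 : F) := (map_ofNat C 3).symm
        rw [this, h3, map_zero]
      have ha : P ∣ a := by
        rw [h3', zero_mul, sub_zero] at h1
        exact hPr.dvd_of_dvd_pow h1
      have h4 : (2 * 2) * b ^ 3 = a * (a * b ^ 2 - 4 * a ^ 2 * c + 18 * b * c) -
          disc a b c - 3 * (9 * c ^ 2) := by unfold disc; ring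
      rw [h3', zero_mul, sub_zero] at h4
      have h5 : P ∣ (2 * 2) * b ^ 3 := by
        rw [h4]
        exact dvd_sub (ha.mul_right _) hD1
      rcases hPr.dvd_or_dvd h5 with h6 | h6
      · rcases hPr.dvd_or_dvd h6 with h7 | h7
        · exact absurd h7 hn2
        · exact absurd h7 hn2
      · exact hPr.dvd_of_dvd_pow h6
  · right
    have hc0 : ¬ P ∣ 2 * (a ^ 2 - 3 * b) := fun h => by
      rcases hPr.dvd_or_dvd h with h6 | h6
      · exact hn2 h6
      · exact h1 h6
    have hcop : IsCoprime (2 * (a ^ 2 - 3 * b)) P :=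
      ((hP.coprime_iff_not_dvd).mpr hc0).symm
    obtain ⟨u, v, huv⟩ := hcop
    obtain ⟨s, hs⟩ : ∃ s : F[X], P ∣ 2 * (a ^ 2 - 3 * b) * s + (a * b - 9 * c) :=
      ⟨-(a * b - 9 * c) * u, (a * b - 9 * c) * v, by linear_combination -(a * b - 9 * c) * huv⟩
    have hf' : P ∣ 3 * s ^ 2 + 2 * a * s + b := by
      have key : (2 * (a ^ 2 - 3 * b)) ^ 2 * (3 * s ^ 2 + 2 * a * s + b) =
          (2 * (a ^ 2 - 3 * b) * s + (a * b - 9 * c)) *
            (3 * (2 * (a ^ 2 - 3 * b) * s - (a * b - 9 * c)) + 4 * a * (a ^ 2 - 3 * b)) -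
          disc a b c * 9 := by unfold disc; ring
      have h5 : P ∣ (2 * (a ^ 2 - 3 * b)) ^ 2 * (3 * s ^ 2 + 2 * a * s + b) := by
        rw [key]
        exact dvd_sub (hs.mul_right _) (hD1.mul_right _)
      rcases hPr.dvd_or_dvd h5 with h6 | h6
      · exact absurd (hPr.dvd_of_dvd_pow h6) hc0
      · exact h6
    have hf : P ∣ s ^ 3 + a * s ^ 2 + b * s + c := by
      have key : (2 * (a ^ 2 - 3 * b)) ^ 3 * (s ^ 3 + a * s ^ 2 + b * s + c) =
          (2 * (a ^ 2 - 3 * b) * s + (a * b - 9 * c)) *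
            ((2 * (a ^ 2 - 3 * b) * s) ^ 2 - (2 * (a ^ 2 - 3 * b) * s) * (a * b - 9 * c) +
              (a * b - 9 * c) ^ 2 + 2 * a * (a ^ 2 - 3 * b) *
                (2 * (a ^ 2 - 3 * b) * s - (a * b - 9 * c)) + 4 * b * (a ^ 2 - 3 * b) ^ 2) +
          disc a b c * (3 * (a * b - 9 * c) - 2 * a * (a ^ 2 - 3 * b)) := by unfold disc; ring
      have h5 : P ∣ (2 * (a ^ 2 - 3 * b)) ^ 3 * (s ^ 3 + a * s ^ 2 + b * s + c) := by
        rw [key]
        exact dvd_add (hs.mul_right _) (hD1.mul_right _)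
      rcases hPr.dvd_or_dvd h5 with h6 | h6
      · exact absurd (hPr.dvd_of_dvd_pow h6) hc0
      · exact h6
    have has : ¬ P ∣ 3 * s + a := fun h => by
      apply h1
      have h5 : a ^ 2 - 3 * b = (3 * s + a) * (3 * s + a) - 3 * (3 * s ^ 2 + 2 * a * s + b) := by
        ring
      rw [h5]
      exact dvd_sub (h.mul_right _) (hf'.mul_left _)
    obtain ⟨β, hβ⟩ := hf'
    obtain ⟨γ, hγ⟩ := hf
    obtain ⟨δ, hδ⟩ := hD
    have hsh : disc a b c = (3 * s + a) ^ 2 * (3 * s ^ 2 + 2 * a * s + b) ^ 2 -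
        4 * (3 * s ^ 2 + 2 * a * s + b) ^ 3 -
        4 * (3 * s + a) ^ 3 * (s ^ 3 + a * s ^ 2 + b * s + c) +
        18 * (3 * s + a) * (3 * s ^ 2 + 2 * a * s + b) * (s ^ 3 + a * s ^ 2 + b * s + c) -
        27 * (s ^ 3 + a * s ^ 2 + b * s + c) ^ 2 := by unfold disc; ring
    have h4 : 2 * 2 * (3 * s + a) ^ 3 * (P * γ) = P * (P * ((3 * s + a) ^ 2 * β ^ 2 -
        4 * P * β ^ 3 + 18 * (3 * s + a) * β * γ - 27 * γ ^ 2 - δ)) := by
      rw [hβ, hγ, hδ] at hsh
      linear_combination hsh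
    have h5 : 2 * 2 * (3 * s + a) ^ 3 * γ = P * ((3 * s + a) ^ 2 * β ^ 2 -
        4 * P * β ^ 3 + 18 * (3 * s + a) * β * γ - 27 * γ ^ 2 - δ) := by
      apply mul_left_cancel₀ hP.ne_zero
      linear_combination h4
    have hγd : P ∣ γ := by
      have h6 : P ∣ 2 * 2 * (3 * s + a) ^ 3 * γ := ⟨_, h5⟩
      rcases hPr.dvd_or_dvd h6 with h7 | h7
      · rcases hPr.dvd_or_dvd h7 with h8 | h8
        · rcases hPr.dvd_or_dvd h8 with h9 | h9
          · exact absurd h9 hn2
          · exact absurd h9 hn2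
        · exact absurd (hPr.dvd_of_dvd_pow h8) has
      · exact h7
    obtain ⟨ε, hε⟩ := hγd
    refine ⟨s, ⟨γ, hγ⟩, ⟨β, hβ⟩, ?_⟩
    have hder : derivative (s ^ 3 + a * s ^ 2 + b * s + c) = derivative (P * (P * ε)) := by
      rw [hγ, hε]
    have hder2 : derivative a * s ^ 2 + derivative b * s + derivative c =
        2 * P * derivative P * ε + P * P * derivative ε - derivative s * (P * β) := by
      rw [← hβ]
      simp only [derivative_add, derivative_mul, derivative_pow, Nat.cast_ofNat] at hder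
      simp only [map_ofNat] at hder
      linear_combination hder
    rw [hder2]
    exact ⟨2 * derivative P * ε + P * derivative ε - derivative s * β, by ring⟩

end Pool.AVS
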